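import Mathlib

/-!
# A finite additive poset without a rank

The additive poset has 16 elements. Its group is `F_2^4`; the 15 nonzero elements are partitioned into five
lines `{b, b', u}` with `b + b' = u` (a spread of `PG(3, 2)`), and the order is: `0` is the least element,
and `b < u`, `b' < u` for the five lines.
-/

set_option autoImplicit false

namespace Pool.Agent.Results.MP_efcf90_co.NoRank

/-- The axioms of an additive poset: if `b ≤ a` and `c ≤ a`, then `b + c ≤ a`; if `a ≤ b` and `a ≤ c`, then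
`a ≤ a + b + c`. -/
def IsAdditivePoset (A : Type) [AddCommGroup A] [PartialOrder A] : Prop :=
  (∀ a b c : A, b ≤ a → c ≤ a → b + c ≤ a) ∧ ∀ a b c : A, a ≤ b → a ≤ c → a ≤ a + b + c

/-- `r` is a rank of the additive poset `A`:
1. `r a = 0` if and only if `a = 0`;
2. `r (a + b) = r a + r b` if `a` and `b` are independent, that is, if `a ≤ a + b`;
3. for every finite nonempty `K ⊆ A` the sum over the nonempty subsets `J` of `K` of
`(-1) ^ (|J| + 1) r (∑ a ∈ J, a)` is nonnegative and divisible by `2 ^ (|K| - 1)`. -/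
def IsRank {A : Type} [AddCommGroup A] [PartialOrder A] (r : A → ℕ) : Prop :=
  (∀ a : A, r a = 0 ↔ a = 0) ∧
  (∀ a b : A, a ≤ a + b → r (a + b) = r a + r b) ∧
  ∀ K : Finset A, K.Nonempty →
    0 ≤ ∑ J ∈ K.powerset with J.Nonempty, (-1 : ℤ) ^ (J.card + 1) * (r (∑ a ∈ J, a) : ℤ) ∧
    (2 : ℤ) ^ (K.card - 1) ∣
      ∑ J ∈ K.powerset with J.Nonempty, (-1 : ℤ) ^ (J.card + 1) * (r (∑ a ∈ J, a) : ℤ)

/-- the group with 16 elements -/
def A : Type := ZMod 2 × ZMod 2 × ZMod 2 × ZMod 2

instance : AddCommGroup A := inferInstanceAs (AddCommGroup (ZMod 2 × ZMod 2 × ZMod 2 × ZMod 2))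
instance : DecidableEq A := inferInstanceAs (DecidableEq (ZMod 2 × ZMod 2 × ZMod 2 × ZMod 2))
instance : Fintype A := inferInstanceAs (Fintype (ZMod 2 × ZMod 2 × ZMod 2 × ZMod 2))

/-- the element with the binary digits of `i` -/
def g (i : Fin 16) : A :=
  (((i.val / 8 : ℕ) : ZMod 2), ((i.val / 4 : ℕ) : ZMod 2), ((i.val / 2 : ℕ) : ZMod 2),
    ((i.val : ℕ) : ZMod 2))

/-- the pairs `(b, u)` -/
def pairs : List (A × A) :=
  [(g 4, g 12), (g 8, g 12), (g 1, g 2), (g 3, g 2), (g 5, g 15), (g 10, g 15), (g 6, g 13),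
    (g 11, g 13), (g 7, g 14), (g 9, g 14)]

/-- the order -/
def le (b a : A) : Bool := b == 0 || b == a || pairs.contains (b, a)

instance : PartialOrder A where
  le b a := le b a = true
  le_refl := by decide +kernel
  le_trans := by decide +kernel
  le_antisymm := by decide +kernel

instance (b a : A) : Decidable (b ≤ a) := inferInstanceAs (Decidable (le b a = true))

lemma additive : IsAdditivePoset A := by
  constructor
  · decide +kernel
  · decide +kernel

/-- the value at `x` of the linear functional `f` -/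
def chi (f x : Fin 16) : Bool := ((f.val &&& x.val) % 2 + (f.val &&& x.val) / 2 % 2 +
  (f.val &&& x.val) / 4 % 2 + (f.val &&& x.val) / 8 % 2) % 2 == 1

/-- a basis on which the functional `f` is one -/
def bas : Fin 16 → Finset A
  | 1 => {g 1, g 3, g 5, g 9}
  | 2 => {g 2, g 3, g 6, g 10}
  | 3 => {g 1, g 2, g 5, g 9}
  | 4 => {g 4, g 5, g 6, g 12}
  | 5 => {g 1, g 3, g 4, g 9}
  | 6 => {g 2, g 3, g 4, g 10}
  | 7 => {g 1, g 2, g 4, g 9}
  | 8 => {g 8, g 9, g 10, g 12}
  | 9 => {g 1, g 3, g 5, g 8}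
  | 10 => {g 2, g 3, g 6, g 8}
  | 11 => {g 1, g 2, g 5, g 8}
  | 12 => {g 4, g 5, g 6, g 8}
  | 13 => {g 1, g 3, g 4, g 8}
  | 14 => {g 2, g 3, g 4, g 8}
  | 15 => {g 1, g 2, g 4, g 8}
  | _ => {g 1}

lemma coef : ∀ f : Fin 16, f ≠ 0 → ∀ x : Fin 16, x ≠ 0 →
    (∑ J ∈ (bas f).powerset with J.Nonempty ∧ ∑ a ∈ J, a = g x, (-1 : ℤ) ^ (J.card + 1)) =
      if chi f x then 1 else -1 := by
  decide +kernel

lemma g_inj : Function.Injective g := by
  decide +kernel

lemma g_surj : ∀ a : A, ∃ i : Fin 16, g i = a := by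
  decide +kernel

lemma ineq {r : A → ℕ} (hr : IsRank r) {f : Fin 16} (hf : f ≠ 0) :
    0 ≤ ∑ x : Fin 16, (if x = 0 then 0 else if chi f x then 1 else -1) * (r (g x) : ℤ) := by
  have hb : (bas f).Nonempty := by
    revert f
    decide +kernel
  refine ((hr.2.2 (bas f) hb).1).trans (le_of_eq ?_)
  rw [← Finset.sum_fiberwise_of_maps_to (s := (bas f).powerset.filter fun J => J.Nonempty)
    (t := Finset.univ.image g) (g := fun J => ∑ a ∈ J, a)
    (fun J _ => by
      obtain ⟨i, hi⟩ := g_surj (∑ a ∈ J, a)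
      exact Finset.mem_image.2 ⟨i, Finset.mem_univ _, hi⟩), Finset.sum_image g_inj.injOn]
  refine Finset.sum_congr rfl fun x _ => ?_
  by_cases hx : x = 0
  · subst hx
    rw [if_pos rfl, zero_mul]
    refine Finset.sum_eq_zero fun J hJ => ?_
    have h1 : ∑ a ∈ J, a = g 0 := (Finset.mem_filter.1 hJ).2
    have h2 : r (g 0) = 0 := (hr.1 _).2 (by decide +kernel)
    rw [h1, h2]
    simp
  · rw [if_neg hx, ← coef f hf x hx, Finset.sum_mul, Finset.filter_filter]
    refine Finset.sum_congr rfl fun J hJ => ?_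
    rw [(Finset.mem_filter.1 hJ).2.2]

/-- **Theorem.** There is an additive poset with 16 elements which does not admit a rank. -/
theorem result : ∃ (A : Type) (_ : AddCommGroup A) (_ : PartialOrder A),
    IsAdditivePoset A ∧ Nat.card A = 16 ∧ ¬ ∃ r : A → ℕ, IsRank r := by
  refine ⟨A, inferInstance, inferInstance, additive, ?_, ?_⟩
  · rw [Nat.card_eq_fintype_card]
    rfl
  rintro ⟨r, hr⟩
  have e1 : r (g 12) = r (g 4) + r (g 8) := hr.2.1 (g 4) (g 8) (by decide +kernel)
  have e2 : r (g 2) = r (g 1) + r (g 3) := hr.2.1 (g 1) (g 3) (by decide +kernel)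
  have e3 : r (g 15) = r (g 5) + r (g 10) := hr.2.1 (g 5) (g 10) (by decide +kernel)
  have e4 : r (g 13) = r (g 6) + r (g 11) := hr.2.1 (g 6) (g 11) (by decide +kernel)
  have e5 : r (g 14) = r (g 7) + r (g 9) := hr.2.1 (g 7) (g 9) (by decide +kernel)
  have i1 := ineq hr (f := 1) (by decide)
  have i2 := ineq hr (f := 2) (by decide)
  have i3 := ineq hr (f := 3) (by decide)
  have i4 := ineq hr (f := 4) (by decide)
  have i5 := ineq hr (f := 5) (by decide)
  have i6 := ineq hr (f := 6) (by decide)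
  have i7 := ineq hr (f := 7) (by decide)
  have i8 := ineq hr (f := 8) (by decide)
  have i9 := ineq hr (f := 9) (by decide)
  have i10 := ineq hr (f := 10) (by decide)
  have i11 := ineq hr (f := 11) (by decide)
  have i12 := ineq hr (f := 12) (by decide)
  have i13 := ineq hr (f := 13) (by decide)
  have i14 := ineq hr (f := 14) (by decide)
  have i15 := ineq hr (f := 15) (by decide)
  have h1 : r (g 1) ≠ 0 := fun h => absurd ((hr.1 _).1 h) (by decide +kernel)
  simp [Fin.sum_univ_succ, chi] at i1 i2 i3 i4 i5 i6 i7 i8 i9 i10 i11 i12 i13 i14 i15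
  omega

end Pool.Agent.Results.MP_efcf90_co.NoRank
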